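import Mathlib

/-!
# Conjugacy classes versus prime factors of the order: abelian Sylow subgroups of rank two

If `8` does not divide `|G|` and the Sylow `p`-subgroups of `G` are abelian of rank at most two for
every odd prime `p` (for example if `|G|` is cube-free), then `k(G) ≥ Ω(|G|)`.
-/

set_option autoImplicit false

namespace Pool.Agent.Results.MP_95376e_al.AbelianRankTwo

set_option linter.unusedSectionVars false

variable {G : Type} [Group G] [Finite G]

/-- The classes of the elements of order `n`. -/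
def cls (G : Type) [Group G] (n : ℕ) : Set (ConjClasses G) :=
  {c | ∃ x : G, ConjClasses.mk x = c ∧ orderOf x = n}

lemma orderOf_eq_of_mk_eq {x y : G} (h : ConjClasses.mk x = ConjClasses.mk y) :
    orderOf x = orderOf y := by
  rw [ConjClasses.mk_eq_mk_iff_isConj, isConj_iff] at h
  obtain ⟨c, hc⟩ := h
  rw [← hc]
  have h1 : SemiconjBy c x (c * x * c⁻¹) := by
    unfold SemiconjBy
    group
  exact SemiconjBy.orderOf_eq (x := x) (y := c * x * c⁻¹) (a := c) h1

lemma cls_disjoint {m n : ℕ} (h : m ≠ n) : Disjoint (cls G m) (cls G n) := by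
  rw [Set.disjoint_left]
  rintro c ⟨x, hx, hm⟩ ⟨y, hy, hn⟩
  exact h (by rw [← hm, ← hn]; exact orderOf_eq_of_mk_eq (hx.trans hy.symm))

/-- The classes of different orders can be added. -/
lemma sum_cls_le (S : Finset ℕ) : ∑ n ∈ S, (cls G n).ncard ≤ Nat.card (ConjClasses G) := by
  classical
  have h1 : ∑ n ∈ S, (cls G n).ncard = (⋃ n ∈ S, cls G n).ncard := by
    induction S using Finset.induction_on with
    | empty => simp
    | insert a s ha ih =>
      rw [Finset.sum_insert ha, ih, Finset.set_biUnion_insert, Set.ncard_union_eq]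
      rw [Set.disjoint_iUnion₂_right]
      intro n hn
      exact cls_disjoint (fun h => ha (h ▸ hn))
  rw [h1, ← Set.ncard_univ]
  exact Set.ncard_le_ncard (Set.subset_univ _) (Set.toFinite _)

/-- The elements of `P` killed by `p ^ i`, for an abelian Sylow subgroup `P`. -/
def Om {p : ℕ} (P : Sylow p G) (hP : ∀ x ∈ P, ∀ y ∈ P, x * y = y * x) (i : ℕ) : Subgroup G where
  carrier := {x | x ∈ P ∧ x ^ p ^ i = 1}
  mul_mem' := by
    rintro a b ⟨ha, ha'⟩ ⟨hb, hb'⟩
    refine ⟨P.mul_mem ha hb, ?_⟩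
    rw [Commute.mul_pow (hP a ha b hb), ha', hb', one_mul]
  one_mem' := ⟨P.one_mem, one_pow _⟩
  inv_mem' := by
    rintro a ⟨ha, ha'⟩
    exact ⟨P.inv_mem ha, by rw [inv_pow, ha', inv_one]⟩

lemma mem_Om {p : ℕ} {P : Sylow p G} {hP : ∀ x ∈ P, ∀ y ∈ P, x * y = y * x} {i : ℕ} {x : G} :
    x ∈ Om P hP i ↔ x ∈ P ∧ x ^ p ^ i = 1 := Iff.rfl

/-- If all elements of order `p` of an abelian Sylow `p`-subgroup are conjugate and there are
`p ^ 2 - 1` of them, then `p ^ 2 - 1` divides the order. -/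
lemma dvd_card {p : ℕ} [Fact p.Prime] (P : Sylow p G) (hP : ∀ x ∈ P, ∀ y ∈ P, x * y = y * x)
    (hcard : Nat.card (Om P hP 1) = p ^ 2)
    (hconj : ∀ x ∈ Om P hP 1, ∀ y ∈ Om P hP 1, x ≠ 1 → y ≠ 1 → IsConj x y) :
    p ^ 2 - 1 ∣ Nat.card G := by
  classical
  have hp : p.Prime := Fact.out
  have : IsMulCommutative P := ⟨⟨fun a b => Subtype.ext (hP a a.2 b b.2)⟩⟩
  have hp2 : 1 < p ^ 2 := Nat.one_lt_pow two_ne_zero hp.one_lt
  obtain ⟨u, hu, hu1⟩ : ∃ u ∈ Om P hP 1, u ≠ 1 := by
    have h1 : 1 < Nat.card (Om P hP 1) := hcard ▸ hp2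
    have h2 : Nontrivial (Om P hP 1) := Finite.one_lt_card_iff_nontrivial.1 h1
    obtain ⟨u, hu⟩ := exists_ne (1 : Om P hP 1)
    exact ⟨u, u.2, fun h => hu (Subtype.ext h)⟩
  let N : Subgroup G := Subgroup.normalizer (P : Subgroup G)
  let : MulAction N G := MulAction.compHom G ((MulAut.conj : G →* MulAut G).comp N.subtype)
  have hsmul : ∀ (n : N) (x : G), n • x = (n : G) * x * (n : G)⁻¹ := fun n x => rfl
  have horb : MulAction.orbit N u = {x | x ∈ Om P hP 1 ∧ x ≠ 1} := by
    ext x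
    constructor
    · rintro ⟨n, rfl⟩
      change n • u ∈ _
      rw [hsmul]
      refine ⟨⟨?_, ?_⟩, ?_⟩
      · exact (Subgroup.mem_normalizer_iff.1 n.2 u).1 hu.1
      · rw [conj_pow, hu.2, mul_one, mul_inv_cancel]
      · intro h
        apply hu1
        have : u = (n : G)⁻¹ * ((n : G) * u * (n : G)⁻¹) * n := by group
        rw [this, h]; group
    · rintro ⟨hx, hx1⟩
      obtain ⟨c, hc⟩ := isConj_iff.1 (hconj u hu x hx hu1 hx1)
      have h2 : (c⁻¹)⁻¹ * u * c⁻¹ ∈ P := by rw [inv_inv, hc]; exact hx.1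
      obtain ⟨n, hn, hn'⟩ := P.conj_eq_normalizer_conj_of_mem u c⁻¹ hu.1 h2
      refine ⟨⟨n⁻¹, N.inv_mem hn⟩, ?_⟩
      change (⟨n⁻¹, N.inv_mem hn⟩ : N) • u = x
      rw [hsmul]
      rw [inv_inv] at hn'
      simp only [inv_inv]
      rw [← hn', hc]
  have hcardorb : Nat.card (MulAction.orbit N u) = p ^ 2 - 1 := by
    rw [horb]
    have h1 : ({x | x ∈ Om P hP 1 ∧ x ≠ 1} : Set G) = ((Om P hP 1 : Subgroup G) : Set G) \ {1} := by
      ext x; simp
    rw [h1, Nat.card_coe_set_eq, Set.ncard_sdiff_singleton_of_mem (Om P hP 1).one_mem]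
    rw [← Nat.card_coe_set_eq]
    change Nat.card (Om P hP 1) - 1 = _
    rw [hcard]
  have h3 : Nat.card (MulAction.orbit N u) ∣ Nat.card N := by
    rw [Nat.card_congr (MulAction.orbitEquivQuotientStabilizer N u)]
    exact Subgroup.card_quotient_dvd_card _
  rw [hcardorb] at h3
  exact h3.trans (Subgroup.card_subgroup_dvd_card N)

lemma eight_dvd {p : ℕ} (hp : Odd p) : 8 ∣ p ^ 2 - 1 := by
  obtain ⟨k, rfl⟩ := hp
  have h1 : (2 * k + 1) ^ 2 - 1 = 4 * (k * (k + 1)) := by
    have : (2 * k + 1) ^ 2 = 4 * (k * (k + 1)) + 1 := by ring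
    omega
  rw [h1]
  have h2 : 2 ∣ k * (k + 1) := (Nat.even_mul_succ_self k).two_dvd
  obtain ⟨m, hm⟩ := h2
  rw [hm]
  exact ⟨m, by ring⟩

/-- The growth of the subgroups `Om`. -/
lemma card_Om_succ_le {p : ℕ} [Fact p.Prime] (hodd : Odd p) (h8 : ¬ 8 ∣ Nat.card G)
    (P : Sylow p G) (hP : ∀ x ∈ P, ∀ y ∈ P, x * y = y * x)
    (hrank : Nat.card (Om P hP 1) ≤ p ^ 2) (i : ℕ) :
    Nat.card (Om P hP (i + 1)) ≤ p ^ (cls G (p ^ (i + 1))).ncard * Nat.card (Om P hP i) := by
  classical
  have hp : p.Prime := Fact.out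
  -- the power map
  have hle : Om P hP i ≤ Om P hP (i + 1) := by
    intro x hx
    refine ⟨hx.1, ?_⟩
    rw [pow_succ p i, pow_mul, hx.2, one_pow]
  let φ : Om P hP (i + 1) →* Om P hP 1 :=
    { toFun := fun x => ⟨(x : G) ^ p ^ i, P.pow_mem x.2.1 _, by
        rw [← pow_mul, ← pow_add]; exact x.2.2⟩
      map_one' := Subtype.ext (one_pow _)
      map_mul' := fun x y => Subtype.ext (Commute.mul_pow (hP x x.2.1 y y.2.1) _) }
  have hker : ∀ x : Om P hP (i + 1), x ∈ φ.ker ↔ (x : G) ∈ Om P hP i := by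
    intro x
    rw [MonoidHom.mem_ker]
    constructor
    · intro h
      exact ⟨x.2.1, congrArg Subtype.val h⟩
    · intro h
      exact Subtype.ext h.2
  have hkercard : Nat.card φ.ker = Nat.card (Om P hP i) := by
    refine Nat.card_congr
      { toFun := fun x => ⟨x.1, (hker x.1).1 x.2⟩
        invFun := fun y => ⟨⟨y.1, hle y.2⟩, (hker _).2 y.2⟩
        left_inv := fun x => rfl
        right_inv := fun y => rfl }
  have hmul : Nat.card φ.ker * Nat.card φ.range = Nat.card (Om P hP (i + 1)) :=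
    Subgroup.card_mul_index φ.ker ▸ by rw [Subgroup.index_ker]
  have hrange : Nat.card φ.range ≤ Nat.card (Om P hP 1) :=
    Nat.card_le_card_of_injective (fun x => (x : Om P hP 1)) Subtype.val_injective
  -- the number of classes
  set d := (cls G (p ^ (i + 1))).ncard with hd
  have hgoal : Nat.card φ.range ≤ p ^ d → Nat.card (Om P hP (i + 1)) ≤ p ^ d * Nat.card (Om P hP i) := by
    intro h
    rw [← hmul, hkercard, mul_comm]
    exact Nat.mul_le_mul_right _ h
  apply hgoal
  rcases lt_or_ge 1 d with hd1 | hd1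
  · exact (hrange.trans hrank).trans (Nat.pow_le_pow_right hp.pos hd1)
  -- the range is a p-group
  have hpow : ∃ m, Nat.card φ.range = p ^ m := by
    have h1 : Nat.card φ.range ∣ Nat.card (Om P hP (i + 1)) := ⟨_, by rw [← hmul, mul_comm]⟩
    have h2 : Nat.card (Om P hP (i + 1)) ∣ Nat.card P :=
      Subgroup.card_dvd_of_le (fun x hx => hx.1)
    obtain ⟨n, hn⟩ := IsPGroup.iff_card.1 P.isPGroup'
    have h3 : Nat.card φ.range ∣ p ^ n := by
      rw [← hn]; exact h1.trans h2
    obtain ⟨m, -, hm⟩ := (Nat.dvd_prime_pow hp).1 h3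
    exact ⟨m, hm⟩
  obtain ⟨m, hm⟩ := hpow
  rw [hm]
  -- elements of order `p ^ (i+1)`
  have hord : ∀ x : Om P hP (i + 1), φ x ≠ 1 → orderOf (x : G) = p ^ (i + 1) := by
    intro x hx
    refine orderOf_eq_prime_pow (fun h => hx (Subtype.ext h)) x.2.2
  rcases Nat.lt_or_ge m 1 with hm0 | hm0
  · have : m = 0 := by omega
    rw [this, pow_zero]
    exact Nat.one_le_pow _ _ hp.pos
  -- there is an element of order `p ^ (i+1)`
  have hex : ∃ x : Om P hP (i + 1), φ x ≠ 1 := by
    by_contra hcon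
    push Not at hcon
    have h1 : Nat.card φ.range = 1 := by
      rw [Nat.card_eq_one_iff_unique]
      refine ⟨⟨?_⟩, ⟨1⟩⟩
      rintro ⟨a, x, rfl⟩ ⟨b, y, rfl⟩
      exact Subtype.ext ((hcon x).trans (hcon y).symm)
    rw [h1] at hm
    have : 1 < p ^ m := Nat.one_lt_pow (by omega) hp.one_lt
    omega
  have hdpos : 1 ≤ d := by
    obtain ⟨x, hx⟩ := hex
    rw [hd, Nat.one_le_iff_ne_zero, Ne, Set.ncard_eq_zero (Set.toFinite _)]
    intro h
    have : ConjClasses.mk (x : G) ∈ cls G (p ^ (i + 1)) := ⟨x, rfl, hord x hx⟩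
    rw [h] at this
    exact this
  have hdone : d = 1 := le_antisymm hd1 hdpos
  rw [hdone]
  refine Nat.pow_le_pow_right hp.pos ?_
  by_contra hm1
  push Not at hm1
  -- now the range is everything and has order `p ^ 2`
  have hcardrange : p ^ 2 ≤ Nat.card φ.range := by
    rw [hm]; exact Nat.pow_le_pow_right hp.pos hm1
  have hcard1 : Nat.card (Om P hP 1) = p ^ 2 := le_antisymm hrank (hcardrange.trans hrange)
  have hsurj : Function.Surjective φ := by
    rw [← MonoidHom.range_eq_top]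
    apply Subgroup.eq_top_of_card_eq
    rw [hcard1]
    exact le_antisymm (hrange.trans hrank) hcardrange
  apply h8
  refine (eight_dvd hodd).trans (dvd_card P hP hcard1 ?_)
  intro u hu v hv hu1 hv1
  obtain ⟨x, hx⟩ := hsurj ⟨u, hu⟩
  obtain ⟨y, hy⟩ := hsurj ⟨v, hv⟩
  have hx1 : orderOf (x : G) = p ^ (i + 1) :=
    hord x (by rw [hx]; exact fun h => hu1 (congrArg Subtype.val h))
  have hy1 : orderOf (y : G) = p ^ (i + 1) :=
    hord y (by rw [hy]; exact fun h => hv1 (congrArg Subtype.val h))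
  obtain ⟨c, hc⟩ := Set.ncard_eq_one.1 (hd.symm.trans hdone)
  have hcx : ConjClasses.mk (x : G) = c := by
    have : ConjClasses.mk (x : G) ∈ cls G (p ^ (i + 1)) := ⟨x, rfl, hx1⟩
    rw [hc] at this
    exact this
  have hcy : ConjClasses.mk (y : G) = c := by
    have : ConjClasses.mk (y : G) ∈ cls G (p ^ (i + 1)) := ⟨y, rfl, hy1⟩
    rw [hc] at this
    exact this
  have hxy : IsConj (x : G) (y : G) :=
    ConjClasses.mk_eq_mk_iff_isConj.1 (hcx.trans hcy.symm)
  obtain ⟨g, hg⟩ := isConj_iff.1 hxy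
  have hu' : (x : G) ^ p ^ i = u := congrArg Subtype.val hx
  have hv' : (y : G) ^ p ^ i = v := congrArg Subtype.val hy
  refine isConj_iff.2 ⟨g, ?_⟩
  rw [← hu', ← hv', ← hg, conj_pow]

/-- The `p`-part, `p` odd. -/
lemma factorization_le {p : ℕ} [Fact p.Prime] (hodd : Odd p) (h8 : ¬ 8 ∣ Nat.card G)
    (P : Sylow p G) (hP : ∀ x ∈ P, ∀ y ∈ P, x * y = y * x)
    (hrank : Nat.card (Om P hP 1) ≤ p ^ 2) :
    (Nat.card G).factorization p ≤
      ∑ i ∈ Finset.range ((Nat.card G).factorization p), (cls G (p ^ (i + 1))).ncard := by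
  classical
  have hp : p.Prime := Fact.out
  set n := (Nat.card G).factorization p with hn
  have hcard : Nat.card P = p ^ n := by
    rw [P.card_eq_multiplicity]
  have hind : ∀ i, Nat.card (Om P hP i) ≤
      p ^ (∑ j ∈ Finset.range i, (cls G (p ^ (j + 1))).ncard) := by
    intro i
    induction i with
    | zero =>
      rw [Finset.range_zero, Finset.sum_empty, pow_zero]
      rw [Nat.card_eq_one_iff_unique.2 ⟨⟨?_⟩, ⟨1⟩⟩]
      rintro ⟨a, ha⟩ ⟨b, hb⟩
      have h1 := ha.2
      have h2 := hb.2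
      rw [pow_zero, pow_one] at h1 h2
      exact Subtype.ext (h1.trans h2.symm)
    | succ i ih =>
      refine (card_Om_succ_le hodd h8 P hP hrank i).trans ?_
      rw [Finset.sum_range_succ,
        pow_add p (∑ j ∈ Finset.range i, (cls G (p ^ (j + 1))).ncard) _, mul_comm]
      exact Nat.mul_le_mul_right _ ih
  have h1 := hind n
  have h2 : Om P hP n = (P : Subgroup G) := by
    ext x
    refine ⟨fun h => h.1, fun h => ⟨h, ?_⟩⟩
    have h3 : (⟨x, h⟩ : (P : Subgroup G)) ^ p ^ n = 1 := by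
      rw [← hcard]
      exact pow_card_eq_one'
    exact congrArg Subtype.val h3
  rw [h2] at h1
  have h4 : Nat.card (P : Subgroup G) = p ^ n := hcard
  rw [h4] at h1
  exact (Nat.pow_le_pow_iff_right hp.one_lt).1 h1

theorem result (G : Type) [Group G] [Finite G] (h8 : ¬ 8 ∣ Nat.card G)
    (hS : ∀ p : ℕ, p.Prime → p ≠ 2 → ∀ P : Sylow p G,
      (∀ x ∈ P, ∀ y ∈ P, x * y = y * x) ∧ {x : G | x ∈ P ∧ x ^ p = 1}.ncard ≤ p ^ 2) :
    (Nat.card G).primeFactorsList.length ≤ Nat.card (ConjClasses G) := by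
  classical
  set n := Nat.card G with hn
  have hn0 : n ≠ 0 := Nat.card_pos.ne'
  have h1 : n.primeFactorsList.length = ∑ p ∈ n.primeFactors, n.factorization p := by
    rw [← ArithmeticFunction.cardFactors_apply, ArithmeticFunction.cardFactors_eq_sum_factorization]
    rfl
  -- the contribution of every prime
  have h2 : ∀ p ∈ n.primeFactors, n.factorization p ≤
      ∑ i ∈ Finset.range (n.factorization p), (cls G (p ^ (i + 1))).ncard + if p = 2 then 1 else 0 := by
    intro p hp
    have hpp : p.Prime := Nat.prime_of_mem_primeFactors hp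
    have : Fact p.Prime := ⟨hpp⟩
    by_cases h : p = 2
    · subst h
      rw [if_pos rfl]
      have h3 : n.factorization 2 ≤ 2 := by
        by_contra hcon
        push Not at hcon
        apply h8
        have : 2 ^ 3 ∣ n := (hpp.pow_dvd_iff_le_factorization hn0).2 hcon
        simpa using this
      have h4 : 1 ≤ n.factorization 2 :=
        (hpp.dvd_iff_one_le_factorization hn0).1 (Nat.dvd_of_mem_primeFactors hp)
      have h5 : 1 ≤ (cls G (2 ^ (0 + 1))).ncard := by
        obtain ⟨x, hx⟩ := exists_prime_orderOf_dvd_card' (G := G) 2 (Nat.dvd_of_mem_primeFactors hp)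
        rw [Nat.one_le_iff_ne_zero, Ne, Set.ncard_eq_zero (Set.toFinite _)]
        intro h
        have : ConjClasses.mk x ∈ cls G (2 ^ (0 + 1)) := ⟨x, rfl, by simpa using hx⟩
        rw [h] at this
        exact this
      have h6 : (cls G (2 ^ (0 + 1))).ncard ≤
          ∑ i ∈ Finset.range (n.factorization 2), (cls G (2 ^ (i + 1))).ncard :=
        Finset.single_le_sum (f := fun i => (cls G (2 ^ (i + 1))).ncard)
          (fun _ _ => Nat.zero_le _) (Finset.mem_range.2 h4)
      omega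
    · rw [if_neg h, add_zero]
      obtain ⟨P⟩ : Nonempty (Sylow p G) := inferInstance
      obtain ⟨hP, hrank⟩ := hS p hpp h P
      refine factorization_le (hpp.odd_of_ne_two h) h8 P hP ?_
      have h3 : ((Om P hP 1 : Subgroup G) : Set G) = {x : G | x ∈ P ∧ x ^ p = 1} := by
        ext x
        change x ∈ P ∧ x ^ p ^ 1 = 1 ↔ _
        rw [pow_one]; rfl
      rw [← h3, ← Nat.card_coe_set_eq] at hrank
      exact hrank
  -- all orders are different
  let T : Finset ℕ := n.primeFactors.biUnion fun p =>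
    (Finset.range (n.factorization p)).image fun i => p ^ (i + 1)
  have hT1 : 1 ∉ T := by
    intro h
    rw [Finset.mem_biUnion] at h
    obtain ⟨p, hp, h⟩ := h
    rw [Finset.mem_image] at h
    obtain ⟨i, -, h⟩ := h
    have hpp : p.Prime := Nat.prime_of_mem_primeFactors hp
    have : 1 < p ^ (i + 1) := Nat.one_lt_pow (Nat.succ_ne_zero _) hpp.one_lt
    omega
  have hT : ∑ m ∈ T, (cls G m).ncard =
      ∑ p ∈ n.primeFactors, ∑ i ∈ Finset.range (n.factorization p), (cls G (p ^ (i + 1))).ncard := by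
    rw [Finset.sum_biUnion]
    · apply Finset.sum_congr rfl
      intro p hp
      have hpp : p.Prime := Nat.prime_of_mem_primeFactors hp
      rw [Finset.sum_image]
      intro i _ j _ hij
      have := Nat.pow_right_injective hpp.two_le hij
      omega
    · intro p hp q hq hpq
      have hpp : p.Prime := Nat.prime_of_mem_primeFactors hp
      have hqp : q.Prime := Nat.prime_of_mem_primeFactors hq
      rw [Function.onFun, Finset.disjoint_left]
      intro m hm hm'
      rw [Finset.mem_image] at hm hm'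
      obtain ⟨i, -, hi⟩ := hm
      obtain ⟨j, -, hj⟩ := hm'
      apply hpq
      have h3 : p ∣ q ^ (j + 1) := by
        rw [hj, ← hi]; exact dvd_pow_self p (Nat.succ_ne_zero _)
      exact (Nat.prime_dvd_prime_iff_eq hpp hqp).1 (hpp.dvd_of_dvd_pow h3)
  have h3 : ∑ m ∈ insert 1 T, (cls G m).ncard ≤ Nat.card (ConjClasses G) := sum_cls_le _
  rw [Finset.sum_insert hT1, hT] at h3
  have h4 : 1 ≤ (cls G 1).ncard := by
    rw [Nat.one_le_iff_ne_zero, Ne, Set.ncard_eq_zero (Set.toFinite _)]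
    intro h
    have : ConjClasses.mk (1 : G) ∈ cls G 1 := ⟨1, rfl, orderOf_one⟩
    rw [h] at this
    exact this
  rw [h1]
  have h5 := Finset.sum_le_sum h2
  rw [Finset.sum_add_distrib] at h5
  have h6 : ∑ p ∈ n.primeFactors, (if p = 2 then 1 else 0) ≤ 1 := by
    rw [Finset.sum_ite_eq']
    split_ifs <;> simp
  omega

end Pool.Agent.Results.MP_95376e_al.AbelianRankTwo
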