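import Pool.Agent.BertramR2.Main

/-!
# Bertram's inequality for groups with small chief factors

If every chief factor `M / N` of the finite group `G` has prime order, or order the square of an
odd prime, or order `4` (and `G / N` does not have order `3 * 2 ^ j`), or contains at least
`ω |M / N|` nontrivial classes of `G / N`, then `G` has at least `ω |G| + 1` conjugacy classes.
Here `ω` is the number of prime factors counted with multiplicity.
-/

set_option autoImplicit false

namespace Pool.Agent.Results.MP_95376e_al.ChiefFactors

/-- **Bertram's inequality for groups with small chief factors.**  Let `G` be a finite group such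
that for all normal subgroups `N < M` with no normal subgroup of `G` strictly between them one of
the following holds: `|M : N|` is a prime; `|M : N|` is the square of an odd prime; `|M : N| = 4`
and `|G : N|` is not of the form `3 * 2 ^ j`; there are at least `ω |M : N|` elements of `M`
outside `N` whose images in `G / N` are pairwise not conjugate.  Then the number of conjugacy
classes of `G` is at least `ω |G| + 1`. -/
theorem result (G : Type) [Group G] [Finite G]
    (hG : ∀ N M : Subgroup G, N.Normal → M.Normal → N < M →
      (∀ K : Subgroup G, K.Normal → N ≤ K → K ≤ M → K = N ∨ K = M) →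
      (N.relIndex M).Prime ∨
      (∃ p : ℕ, p.Prime ∧ p ≠ 2 ∧ N.relIndex M = p ^ 2) ∨
      (N.relIndex M = 4 ∧ ∀ j : ℕ, N.index ≠ 3 * 2 ^ j) ∨
      (∃ E : Finset G, (∀ e ∈ E, e ∈ M ∧ e ∉ N) ∧
        (∀ e ∈ E, ∀ e' ∈ E, e ≠ e' → ∀ g : G, (g * e * g⁻¹)⁻¹ * e' ∉ N) ∧
        (N.relIndex M).primeFactorsList.length ≤ E.card)) :
    (Nat.card G).primeFactorsList.length + 1 ≤ Nat.card (ConjClasses G) := by
  classical
  refine BertramR2.main G ?_
  intro N M hN hM hlt hmin
  rcases hG N M hN hM hlt hmin with h | h | h | h
  · obtain ⟨e, heM, heN⟩ := Set.exists_of_ssubset (SetLike.coe_ssubset_coe.2 hlt)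
    refine Or.inr (Or.inr ⟨{e}, ?_, ?_, ?_⟩)
    · intro e' he'
      rw [Finset.mem_singleton.1 he']
      exact ⟨heM, heN⟩
    · intro e₁ he₁ e₂ he₂ hne
      rw [Finset.mem_singleton.1 he₁, Finset.mem_singleton.1 he₂] at hne
      exact absurd rfl hne
    · rw [BertramR2.Om_prime h, Finset.card_singleton]
  · exact Or.inl h
  · exact Or.inr (Or.inl h)
  · exact Or.inr (Or.inr h)

end Pool.Agent.Results.MP_95376e_al.ChiefFactors
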