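import Pool.Agent.BertramOdd.Main

/-!
# Bertram's inequality for groups of odd order with chief factors of small rank

If `G` is a finite group of odd order and every chief factor `M / N` of `G` has order `p ^ r` with
`r ≤ 4` (or `r ≤ 5` and `p ^ r` congruent to `1` modulo `4`; or `r ≤ d`, where `d` divides
`p ^ r - 1` and `s ^ 2 - 1` for all primes `s` dividing `|G|`; or with at least `r - 1` nontrivial
classes of `G / N` inside `M / N`), then `G` has at least `ω |G| + 1` conjugacy classes, where `ω`
is the number of prime factors counted with multiplicity.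
-/

set_option autoImplicit false

namespace Pool.Agent.Results.MP_95376e_al.OddOrder

/-- **Bertram's inequality for groups of odd order with chief factors of small rank.**  Let `G` be
a finite group of odd order such that for all normal subgroups `N < M` with no normal subgroup of
`G` strictly between them `|M : N| = p ^ r` for a prime `p` and one of the following holds:
`r ≤ 4`; `r ≤ 5` and `4` divides `p ^ r - 1`; `r ≤ d` for a number `d` that divides `p ^ r - 1` and
divides `s ^ 2 - 1` for every prime divisor `s` of `|G|` (for instance `d = 8`, or `d = 24` if `3`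
does not divide `|G|`); there are at least `r - 1` elements of `M` outside `N` whose images in
`G / N` are pairwise not conjugate.  Then the number of conjugacy classes of `G` is at least
`ω |G| + 1`. -/
theorem result (G : Type) [Group G] [Finite G] (hodd : Odd (Nat.card G))
    (hG : ∀ N M : Subgroup G, N.Normal → M.Normal → N < M →
      (∀ K : Subgroup G, K.Normal → N ≤ K → K ≤ M → K = N ∨ K = M) →
      ∃ p r : ℕ, p.Prime ∧ N.relIndex M = p ^ r ∧
        (r ≤ 4 ∨ (r ≤ 5 ∧ 4 ∣ p ^ r - 1) ∨
        (∃ d : ℕ, r ≤ d ∧ d ∣ p ^ r - 1 ∧ ∀ s : ℕ, s.Prime → s ∣ Nat.card G → d ∣ s ^ 2 - 1) ∨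
        (∃ E : Finset G, (∀ e ∈ E, e ∈ M ∧ e ∉ N) ∧
          (∀ e ∈ E, ∀ e' ∈ E, e ≠ e' → ∀ g : G, (g * e * g⁻¹)⁻¹ * e' ∉ N) ∧
          r ≤ E.card + 1))) :
    (Nat.card G).primeFactorsList.length + 1 ≤ Nat.card (ConjClasses G) := by
  classical
  refine BertramOdd.main G hodd ?_
  intro N M hN hM hlt hmin
  obtain ⟨p, r, hp, hpr, h⟩ := hG N M hN hM hlt hmin
  refine ⟨p, r, hp, hpr, ?_⟩
  rcases h with h | h | h | h
  · exact Or.inl (BertramOdd.rank_sec hodd N M hlt hp hpr (Or.inl h))
  · exact Or.inl (BertramOdd.rank_sec hodd N M hlt hp hpr (Or.inr h))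
  · exact Or.inr h
  · exact Or.inl h

end Pool.Agent.Results.MP_95376e_al.OddOrder
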